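import Pool.Agent.Helper31.WN.L23

/-!
# Linear statistics of the eigenvalues of `binom(2k+i+j, j)`, up to bounded errors
-/

set_option autoImplicit false

namespace Pool.Agent.Helper31.AW

open Finset MeasureTheory Filter Topology
open Pool.Agent.H160R2.OA Pool.Agent.H160R2.HL Pool.Agent.H160R2.NE Pool.Agent.H160R2.SA
open Pool.Agent.H160R2.ML Pool.Agent.Helper31.WN

/-- the eigenvalue lists of sizes `M = N + k` and `N` -/
theorem chain (G h : ℝ → ℝ) (h0 : ∀ x, 0 ≤ x → 0 ≤ h x) (hG : ∀ x, HasDerivAt G (-h x) x)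
    (heven : ∀ x, G (-x) = G x) (hlim : Tendsto G atTop (𝓝 0)) (k : ℕ) :
    ∀ (N M : ℕ) (u : Fin M → ℝ) (v : Fin N → ℝ), M = N + k → IsEig M 0 u → IsEig N (2 * k) v →
      |∑ i, G (u i) - ∑ i, G (v i)| ≤ 6 * G 0 * k := by
  have hanti := Z_antitone h0 hG
  have hnn := Z_nonneg h0 hG heven hlim
  induction k with
  | zero =>
    intro N M u v hM hu hv
    obtain rfl : M = N := by omega
    -- both lists have the same sum
    rcases Nat.eq_zero_or_pos M with rfl | hpos
    · simp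
    · obtain ⟨μ, hμ⟩ := det_wB M (by omega) (Z_herm M)
      rw [sum_eig G M u hu _ μ hμ, sum_eig G M v (by simpa using hv) _ μ hμ]
      simp
  | succ k ih =>
    intro N M u v hM hu hv
    obtain ⟨w, hw⟩ := t_EG (N + 1) (2 * k)
    have h1 := ih (N + 1) M u w (by omega) hu hw
    have hv' : IsEig N (2 * k + 2) v := by
      have : 2 * (k + 1) = 2 * k + 2 := by ring
      rwa [this] at hv
    have h2 := t_IL N (2 * k) w v hw hv'
    have h3 := t_SC (fun x => -G x) (G 0) (fun x => by simp only [heven])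
      (fun a ha b hb hab => neg_le_neg (hanti ha hb hab))
      (fun x => by
        rw [abs_neg, abs_of_nonneg (hnn x), ← Z_even heven x]
        exact hanti (Set.mem_Ici.2 le_rfl) (Set.mem_Ici.2 (abs_nonneg x)) (abs_nonneg x))
      N w v hw.1 hv.1 h2
    rw [Finset.sum_neg_distrib, Finset.sum_neg_distrib] at h3
    push_cast
    rw [abs_le] at h1 h3 ⊢
    constructor <;> linarith

/-- the linear statistics for `binom(2k+i+j, j)` -/
theorem sum_k (G h : ℝ → ℝ) (K Kc : ℝ) (hh : Continuous h) (h0 : ∀ x, 0 ≤ x → 0 ≤ h x)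
    (hK : ∀ x, 0 ≤ x → h x ≤ K * Real.exp (-x)) (hG : ∀ x, HasDerivAt G (-h x) x)
    (heven : ∀ x, G (-x) = G x) (hlim : Tendsto G atTop (𝓝 0)) (hGi : Integrable G)
    (hKc : 0 ≤ Kc) (hc : ∀ x, 0 ≤ x → h x ≤ Kc * ww (-1) 2 x) (k : ℕ) :
    ∃ C : ℝ, ∀ (n : ℕ) (u : Fin (2 * n + 2 - k) → ℝ), k ≤ 2 * n + 2 →
      IsEig (2 * n + 2 - k) (2 * k) u →
      |∑ i, G (u i) - 3 / (2 * Real.pi ^ 2) * (∫ x, G x) * Real.log (2 * n + 2)| ≤ C := by
  obtain ⟨C, hC⟩ := sum_mu G h K Kc hh h0 hK hG heven hlim hGi hKc hc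
  refine ⟨C + 6 * G 0 * k, fun n v hn hv => ?_⟩
  obtain ⟨u, hu⟩ := t_EG (2 * n + 2) 0
  obtain ⟨μ, hμ⟩ := det_wB (2 * n + 2) (by omega) (Z_herm (2 * n + 2))
  have h1 := hC (2 * n + 2) (by omega) _ μ hμ
  rw [← sum_eig G (2 * n + 2) u hu _ μ hμ] at h1
  have h3 := chain G h h0 hG heven hlim k (2 * n + 2 - k) (2 * n + 2) u v (by omega) hu hv
  have e : ((2 * n + 2 : ℕ) : ℝ) = 2 * n + 2 := by push_cast; ring
  rw [e] at h1
  rw [abs_le] at h1 h3 ⊢
  constructor <;> linarith

/-- exponential moments -/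
theorem l2 (k : ℕ) (t : ℝ) (hi : Integrable
      (fun x : ℝ => Real.log ((Real.cosh x + Real.cosh t) / (Real.cosh x + 1))))
    (hv : ∫ x : ℝ, Real.log ((Real.cosh x + Real.cosh t) / (Real.cosh x + 1)) = t ^ 2) :
    ∃ C : ℝ, ∀ (n : ℕ) (u : Fin (2 * n + 2 - k) → ℝ), k ≤ 2 * n + 2 →
      IsEig (2 * n + 2 - k) (2 * k) u →
    |∑ i, Real.log ((Real.cosh (u i) + Real.cosh t) / (Real.cosh (u i) + 1))
      - 3 / (2 * Real.pi ^ 2) * t ^ 2 * Real.log (2 * n + 2)| ≤ C := by
  have hb : 1 ≤ Real.cosh t := Real.one_le_cosh t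
  have e : (fun x : ℝ => Real.log ((Real.cosh x + Real.cosh t) / (Real.cosh x + 1))) =
      WW 2 (2 * Real.cosh t) := by
    funext x
    have h1 := Real.one_le_cosh x
    unfold WW
    rw [← Real.log_div (by positivity) (by positivity)]
    congr 1
    field_simp
  rw [e] at hi hv
  have h2 : (2 : ℝ) ≤ 2 * Real.cosh t := by linarith
  obtain ⟨C, hC⟩ := sum_k (WW 2 (2 * Real.cosh t)) (ww 2 (2 * Real.cosh t))
    (4 * (2 * Real.cosh t - 2)) (2 * Real.cosh t - 2)
    (X_cont _ _ (by norm_num) (by linarith)) (fun x hx => X_nonneg (by norm_num) h2 hx)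
    (fun x hx => X_le (by norm_num) h2 hx) (fun x => X_deriv (by norm_num) (by linarith) x)
    (X_even _ _) (X_lim (by norm_num) h2) hi (by linarith) (fun x hx => by
      have hs := Real.sinh_nonneg_iff.2 hx
      have hc := Real.one_le_cosh x
      unfold ww
      rw [← mul_div_assoc, div_le_div_iff₀ (by positivity)
        (mul_pos (by linarith) (by linarith))]
      have q1 : (2 * Real.cosh x + -1) ≤ 3 * (2 * Real.cosh x + 2 * Real.cosh t) := by linarith
      have q2 : 0 ≤ 2 * Real.sinh x * (2 * Real.cosh t - 2) * (2 * Real.cosh x + 2) := by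
        have : 0 ≤ 2 * Real.cosh t - 2 := by linarith
        positivity
      calc 2 * Real.sinh x * (2 * Real.cosh t - 2) *
            ((2 * Real.cosh x + -1) * (2 * Real.cosh x + 2))
          = 2 * Real.sinh x * (2 * Real.cosh t - 2) * (2 * Real.cosh x + 2) *
            (2 * Real.cosh x + -1) := by ring
        _ ≤ 2 * Real.sinh x * (2 * Real.cosh t - 2) * (2 * Real.cosh x + 2) *
            (3 * (2 * Real.cosh x + 2 * Real.cosh t)) := mul_le_mul_of_nonneg_left q1 q2
        _ = _ := by ring) k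
  rw [hv] at hC
  refine ⟨C, fun n u hn hu => ?_⟩
  have h := hC n u hn hu
  have e2 : ∀ i, Real.log ((Real.cosh (u i) + Real.cosh t) / (Real.cosh (u i) + 1)) =
      WW 2 (2 * Real.cosh t) (u i) := fun i => congrFun e (u i)
  simp only [e2]
  exact h

/-- the variance -/
theorem l3 (k : ℕ) : ∃ C : ℝ, ∀ (n : ℕ) (u : Fin (2 * n + 2 - k) → ℝ), k ≤ 2 * n + 2 →
      IsEig (2 * n + 2 - k) (2 * k) u →
    |∑ i, 1 / (2 * (Real.cosh (u i) + 1)) - 3 / (2 * Real.pi ^ 2) * Real.log (2 * n + 2)| ≤ C := by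
  obtain ⟨C, hC⟩ := sum_k (fun x => 1 / (2 * (Real.cosh x + 1)))
    (fun x => Real.sinh x / (2 * (Real.cosh x + 1) ^ 2)) 1 1
    (Continuous.div Real.continuous_sinh (by fun_prop) fun x => by
      have := l3_pos x
      positivity)
    (fun x hx => by
      have h1 := l3_pos x
      have h2 := Real.sinh_nonneg_iff.2 hx
      positivity)
    (fun x hx => by
      have h1 := l3_pos x
      have h2 := l3_sinh_le x
      have h3 := l3_exp hx
      rw [div_le_iff₀ (by positivity)]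
      calc Real.sinh x ≤ (Real.cosh x + 1) * 1 := by linarith
        _ ≤ (Real.cosh x + 1) * (2 * Real.exp (-x) * (Real.cosh x + 1)) :=
          mul_le_mul_of_nonneg_left h3 h1.le
        _ = _ := by ring)
    l3_deriv (fun x => by simp only [Real.cosh_neg]) l3_lim l3_int.1 zero_le_one
    (fun x hx => by
      have hs := Real.sinh_nonneg_iff.2 hx
      have hc := Real.one_le_cosh x
      unfold ww
      rw [one_mul, div_le_div_iff₀ (by positivity) (mul_pos (by linarith) (by linarith))]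
      have q : (2 * Real.cosh x + -1) * (2 * Real.cosh x + 2) ≤
          2 * (2 - -1) * (2 * (Real.cosh x + 1) ^ 2) := by nlinarith
      calc Real.sinh x * ((2 * Real.cosh x + -1) * (2 * Real.cosh x + 2))
          ≤ Real.sinh x * (2 * (2 - -1) * (2 * (Real.cosh x + 1) ^ 2)) :=
            mul_le_mul_of_nonneg_left q hs
        _ = _ := by ring) k
  rw [l3_int.2, mul_one] at hC
  exact ⟨C, hC⟩

end Pool.Agent.Helper31.AW
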